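import Pool.Agent.H906.BD.Setup

/-! # Effective divisors, their sections, and pseudo-effectivity on quotients `X = U / Δ` -/

open Filter Topology Set Metric

namespace Pool.Agent.H906.BD.Q

variable {N : Type*} [Fintype N] [DecidableEq N] {Δ : Type*} [Group Δ]

/-- `f = exp ψ` with `ψ` plurisubharmonic on `U` (or `-∞`): `f ≥ 0` is upper semicontinuous and
`log f (x)` is at most the mean value over the circle `x + e^{iθ} v` of every continuous function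
`c ≥ log f`, whenever the closed disc `x + t v`, `|t| ≤ 1`, is contained in `U`. -/
def IsLogPsh (U : Set (N → ℂ)) (f : (N → ℂ) → ℝ) : Prop :=
  (∀ x ∈ U, 0 ≤ f x) ∧ UpperSemicontinuousOn f U ∧
    ∀ x v : N → ℂ, (∀ t : ℂ, ‖t‖ ≤ 1 → x + t • v ∈ U) → ∀ c : ℝ → ℝ, Continuous c →
      (∀ θ : ℝ, f (x + Complex.exp (θ * Complex.I) • v) ≤ Real.exp (c θ)) →
      f x ≤ Real.exp ((∫ θ in (0 : ℝ)..(2 * Real.pi), c θ) / (2 * Real.pi))

/-- The functions `s p` on the neighbourhoods `V p` of the points `p ∈ U` are local equations of an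
effective (Cartier) divisor on `X`. Its support is the image of `{x | s x x = 0}`. -/
structure IsDivisor (U : Set (N → ℂ)) (ρ : Δ → (N → ℂ) → (N → ℂ)) (V : (N → ℂ) → Set (N → ℂ))
    (s : (N → ℂ) → (N → ℂ) → ℂ) : Prop where
  isOpen : ∀ p ∈ U, IsOpen (V p)
  mem : ∀ p ∈ U, p ∈ V p
  sub : ∀ p ∈ U, V p ⊆ U
  hol : ∀ p ∈ U, DifferentiableOn ℂ (s p) (V p)
  dense : ∀ p ∈ U, V p ⊆ closure {x | x ∈ V p ∧ s p x ≠ 0}
  invariant : ∀ δ, ∀ p ∈ U, ∀ q ∈ U, ∃ u : (N → ℂ) → ℂ,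
    DifferentiableOn ℂ u {x | x ∈ V p ∧ ρ δ x ∈ V q} ∧
    ∀ x ∈ V p, ρ δ x ∈ V q → u x ≠ 0 ∧ s p x = u x * s q (ρ δ x)

/-- `h` is a section of `O_X(k A)`, `A` the divisor with the local equations `s`: a meromorphic
function on `X` such that `h * s ^ k` is holomorphic. -/
structure IsSectionOf (U : Set (N → ℂ)) (ρ : Δ → (N → ℂ) → (N → ℂ)) (V : (N → ℂ) → Set (N → ℂ))
    (s : (N → ℂ) → (N → ℂ) → ℂ) (k : ℕ) (h : (N → ℂ) → ℂ) : Prop where
  invariant : ∀ δ, ∀ x ∈ U, s x x ≠ 0 → h (ρ δ x) = h x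
  hol : ∀ p ∈ U, ∃ t : (N → ℂ) → ℂ, DifferentiableOn ℂ t (V p) ∧
    ∀ x ∈ V p, s p x ≠ 0 → t x = h x * s p x ^ k

/-- `E` is (the exponential of half the weight of) a singular metric with semipositive curvature on
`m K_X - A`, considered as a metric on `m K_X` vanishing along `A`: `E` is log-plurisubharmonic, not
identically zero, transforms like the absolute value of a section of `m K_X`, and `E / |s|` is
locally bounded. -/
structure IsPsefRest (U : Set (N → ℂ)) (ρ : Δ → (N → ℂ) → (N → ℂ))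
    (s : (N → ℂ) → (N → ℂ) → ℂ) (m : ℕ) (E : (N → ℂ) → ℝ) : Prop where
  psh : IsLogPsh U E
  ne : ∃ x ∈ U, E x ≠ 0
  trans : ∀ δ, ∀ x ∈ U, E (ρ δ x) * ‖(Jac (ρ δ) x).det‖ ^ m = E x
  bound : ∀ p ∈ U, ∃ C : ℝ, ∀ᶠ x in 𝓝 p, E x ≤ C * ‖s p x‖

end Pool.Agent.H906.BD.Q
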