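import Pool.Agent.H906.BD.S.Jets

/-! # Q01 JetsChi: Poincaré series with a unitary character and independent one-jets

The generalisation of `poincare_jets` (`BD/S/Jets.lean`) to automorphy factors `det Jac (σ γ) * χ γ`, where `χ` is a
unitary character with `χ γ ^ m = 1` for `γ` acting trivially on `D` (as in `nonv_main`, `poincare` of `BD/Nonv.lean`), with
weights `l` divisible by `m`. Proof: copy the file `BD/S/Jets.lean` (`sjets_key`, `poincare_jets`) and replace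
`nonv_c σ (fun _ => 1)` by `nonv_c σ χ`, whose absolute value is the same (`nonv_c_norm`), and the exponents `2 * (j + 1)`
by `2 * m * (j + 1)` (so that `nonv_form` applies with `m ∣ l`; on the class of the identity `χ ^ m = 1`, so the term of
`q₁` is again `g`). All estimates are the same (`‖χ‖ = 1`; the derivative of `nonv_c σ χ γ` is `χ γ` times the
derivative of the Jacobian determinant). -/

set_option linter.unusedSectionVars false

open Filter Topology Set Metric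

namespace Pool.Agent.H906.BD.S

universe u

variable {A : Type*} [Fintype A] [DecidableEq A]

/-- The values and the first derivatives of the Poincaré series at `z₀` converge. -/
theorem qjetschi_key {Γ : Type u} [Group Γ] {D : Set (A → ℂ)} (hD : IsOpen D)
    {σ : Γ → (A → ℂ) → (A → ℂ)} (hσ : HolAct D σ)
    (hjac : ∀ γ, DifferentiableOn ℂ (fun z => (Jac (σ γ) z).det) D)
    {Q : Type u} (s : Q → Γ) (q₁ : Q) (hq₁ : ∀ z ∈ D, σ (s q₁) z = z)
    {z₀ : A → ℂ} (hz₀ : z₀ ∈ D) {r : ℝ} (hr : 0 < r) (hrD : closedBall z₀ r ⊆ D)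
    {M : Q → ℝ} (hM : Summable M)
    (hMb : ∀ q, ∀ z ∈ closedBall z₀ r, ‖(Jac (σ (s q)) z).det‖ ^ 2 ≤ M q)
    (F : Finset Q) (hF1 : q₁ ∉ F) (hF : ∀ q, q ∉ F → q ≠ q₁ → M q ≤ 1 / 4)
    {g : (A → ℂ) → ℂ} (hg : Differentiable ℂ g) {C : ℝ} (hC : ∀ z ∈ D, ‖g z‖ ≤ C)
    (hgF : ∀ q ∈ F, g (σ (s q) z₀) = 0 ∧
      HasFDerivAt g (0 : (A → ℂ) →L[ℂ] ℂ) (σ (s q) z₀))
    {χ : Γ → ℂ} (hχ1 : ∀ γ, ‖χ γ‖ = 1) {e : ℕ → ℕ} (he : Tendsto e atTop atTop)
    (hχe : ∀ j, χ (s q₁) ^ (2 * (e j + 1)) = 1)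
    {P : ℕ → (A → ℂ) → ℂ} (hP : ∀ j z, P j z =
      ∑' q, g (σ (s q) z) * nonv_c σ χ (s q) z ^ (2 * (e j + 1)))
    (hPd : ∀ j, DifferentiableOn ℂ (P j) D) :
    Tendsto (fun j => P j z₀) atTop (𝓝 (g z₀)) ∧
      Tendsto (fun j => fderiv ℂ (P j) z₀) atTop (𝓝 (fderiv ℂ g z₀)) := by
  classical
  have hC0 : 0 ≤ C := (norm_nonneg _).trans (hC z₀ hz₀)
  have hM0 : ∀ q, 0 ≤ M q := fun q =>
    (sq_nonneg _).trans (hMb q z₀ (mem_closedBall_self hr.le))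
  obtain ⟨T, hT⟩ : ∃ T, T = ∑' q, M q := ⟨_, rfl⟩
  have hMT : ∀ q, M q ≤ T := fun q => by
    rw [hT]
    exact hM.le_tsum q (fun _ _ => hM0 _)
  have hT0 : 0 ≤ T := (hM0 q₁).trans (hMT q₁)
  obtain ⟨t, ht⟩ : ∃ t : ℕ → Q → (A → ℂ) → ℂ, ∀ j q z, t j q z =
      g (σ (s q) z) * nonv_c σ χ (s q) z ^ (2 * (e j + 1)) := ⟨_, fun _ _ _ => rfl⟩
  have hcn : ∀ γ z, ‖nonv_c σ χ γ z‖ = ‖(Jac (σ γ) z).det‖ := fun γ z =>
    nonv_c_norm hχ1 γ z
  -- the basic bound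
  have hbd : ∀ (b : ℝ) (q : Q), M q ≤ b → ∀ j, ∀ z ∈ closedBall z₀ r,
      ‖t j q z‖ ≤ C * (M q * b ^ e j) := by
    intro b q hb j z hz
    rw [ht, norm_mul, norm_pow, hcn, pow_mul, pow_succ']
    have h1 := hMb q z hz
    have h2 : (‖(Jac (σ (s q)) z).det‖ ^ 2) ^ e j ≤ b ^ e j :=
      pow_le_pow_left₀ (by positivity) (h1.trans hb) (e j)
    exact mul_le_mul (hC _ (hσ.maps _ _ (hrD hz))) (mul_le_mul h1 h2 (by positivity) (hM0 q))
      (by positivity) hC0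
  have hsum : ∀ j, ∀ z ∈ closedBall z₀ r, Summable fun q => t j q z := fun j z hz =>
    Summable.of_norm_bounded ((hM.mul_right (T ^ e j)).mul_left C)
      (fun q => hbd T q (hMT q) j z hz)
  -- the remainder
  obtain ⟨Rm, hRm⟩ : ∃ Rm : ℕ → (A → ℂ) → ℂ, ∀ j z, Rm j z =
      P j z - g z - ∑ q ∈ F, t j q z := ⟨_, fun _ _ => rfl⟩
  have ht1 : ∀ j, ∀ z ∈ D, t j q₁ z = g z := by
    intro j z hz
    rw [ht, hq₁ z hz]
    unfold nonv_c
    rw [nonv_congr hD (g := fun w => w) hq₁ hz, nonv_id, one_mul, hχe, mul_one]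
  have hRb : ∀ j, ∀ z ∈ closedBall z₀ r, ‖Rm j z‖ ≤ C * (T * (1 / 4) ^ e j) := by
    intro j z hz
    obtain ⟨u, hu⟩ : ∃ u : Q → ℂ, ∀ q, u q = if q ∈ insert q₁ F then 0 else t j q z :=
      ⟨_, fun _ => rfl⟩
    obtain ⟨v, hv⟩ : ∃ v : Q → ℂ, ∀ q, v q = if q ∈ insert q₁ F then t j q z else 0 :=
      ⟨_, fun _ => rfl⟩
    have hub : ∀ q, ‖u q‖ ≤ C * (M q * (1 / 4) ^ e j) := by
      intro q
      rw [hu]
      split_ifs with h
      · rw [norm_zero]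
        have := hM0 q
        positivity
      · rw [Finset.mem_insert, not_or] at h
        exact hbd (1 / 4) q (hF q h.2 h.1) j z hz
    have hus : Summable u := Summable.of_norm_bounded ((hM.mul_right ((1 / 4) ^ e j)).mul_left C) hub
    have hvs : HasSum v (∑ q ∈ insert q₁ F, t j q z) := by
      have h1 : ∀ q ∉ insert q₁ F, v q = 0 := fun q hq => by rw [hv, if_neg hq]
      have h2 : HasSum v (∑ q ∈ insert q₁ F, v q) := hasSum_sum_of_ne_finset_zero h1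
      have h3 : ∑ q ∈ insert q₁ F, v q = ∑ q ∈ insert q₁ F, t j q z :=
        Finset.sum_congr rfl fun q hq => by rw [hv, if_pos hq]
      rwa [h3] at h2
    have huv : ∀ q, t j q z = u q + v q := by
      intro q
      rw [hu, hv]
      split_ifs
      · rw [zero_add]
      · rw [add_zero]
    have h1 : P j z = ∑' q, u q + ∑ q ∈ insert q₁ F, t j q z := by
      have h2 : P j z = ∑' q, t j q z := by
        rw [hP]
        exact tsum_congr fun q => (ht j q z).symm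
      rw [h2, tsum_congr huv, hus.tsum_add hvs.summable, hvs.tsum_eq]
    have h2 : Rm j z = ∑' q, u q := by
      rw [hRm, h1, Finset.sum_insert hF1, ht1 j z (hrD hz)]
      ring
    rw [h2]
    have h3 : HasSum (fun q => C * (M q * (1 / 4) ^ e j)) (C * (T * (1 / 4) ^ e j)) := by
      rw [hT]
      exact (hM.hasSum.mul_right _).mul_left _
    exact tsum_of_norm_bounded h3 hub
  have htd : ∀ j q, DifferentiableOn ℂ (t j q) D := by
    intro j q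
    have h1 : t j q = fun z =>
        g (σ (s q) z) * nonv_c σ χ (s q) z ^ (2 * (e j + 1)) := funext (ht j q)
    rw [h1]
    refine DifferentiableOn.mul ?_ ?_
    · exact (hg.differentiableOn (s := univ)).comp (hσ.hol (s q)) (fun z _ => mem_univ _)
    · refine DifferentiableOn.pow ?_ _
      unfold nonv_c
      exact (hjac (s q)).mul_const _
  have hRd : ∀ j, DifferentiableOn ℂ (Rm j) D := by
    intro j
    have h1 : Rm j = fun z => P j z - g z - ∑ q ∈ F, t j q z := funext (hRm j)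
    rw [h1]
    exact ((hPd j).sub hg.differentiableOn).sub
      (DifferentiableOn.fun_sum fun q _ => htd j q)
  have hlim : Tendsto (fun j : ℕ => C * (T * (1 / 4 : ℝ) ^ e j)) atTop (𝓝 0) := by
    have h1 : Tendsto (fun j : ℕ => (1 / 4 : ℝ) ^ e j) atTop (𝓝 0) :=
      (tendsto_pow_atTop_nhds_zero_of_lt_one (by norm_num) (by norm_num)).comp he
    have h2 := (h1.const_mul T).const_mul C
    rwa [mul_zero, mul_zero] at h2
  -- values
  have hR0 : Tendsto (fun j => Rm j z₀) atTop (𝓝 0) :=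
    squeeze_zero_norm (fun j => hRb j z₀ (mem_closedBall_self hr.le)) hlim
  have hR1 : Tendsto (fun j => fderiv ℂ (Rm j) z₀) atTop (𝓝 0) := by
    have h1 : ∀ j, ‖fderiv ℂ (Rm j) z₀‖ ≤ 4 * (C * (T * (1 / 4) ^ e j)) / r := fun j =>
      fderiv_bound ((hRd j).mono (ball_subset_closedBall.trans hrD))
        (fun z hz => hRb j z (ball_subset_closedBall hz)) (mem_ball_self (by linarith))
    have h2 : Tendsto (fun j : ℕ => 4 * (C * (T * (1 / 4 : ℝ) ^ e j)) / r) atTop (𝓝 0) := by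
      have h3 := (hlim.const_mul 4).div_const r
      rwa [mul_zero, zero_div] at h3
    exact squeeze_zero_norm h1 h2
  have hJd : ∀ q, DifferentiableAt ℂ (nonv_c σ χ (s q)) z₀ := by
    intro q
    have h1 : DifferentiableOn ℂ (nonv_c σ χ (s q)) D := by
      have h2 : nonv_c σ χ (s q) = fun z => (Jac (σ (s q)) z).det * χ (s q) := rfl
      rw [h2]
      exact (hjac (s q)).mul_const _
    exact h1.differentiableAt (hD.mem_nhds hz₀)
  have ht0 : ∀ j, ∀ q ∈ F, t j q z₀ = 0 ∧ HasFDerivAt (t j q) (0 : (A → ℂ) →L[ℂ] ℂ) z₀ := by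
    intro j q hq
    obtain ⟨h1, h2⟩ := hgF q hq
    refine ⟨by rw [ht, h1, zero_mul], ?_⟩
    have h3 : t j q = fun z =>
        g (σ (s q) z) * nonv_c σ χ (s q) z ^ (2 * (e j + 1)) := funext (ht j q)
    rw [h3]
    have h4 : HasFDerivAt (σ (s q)) (fderiv ℂ (σ (s q)) z₀) z₀ :=
      ((hσ.hol (s q)).differentiableAt (hD.mem_nhds hz₀)).hasFDerivAt
    have h5 : HasFDerivAt (fun z => g (σ (s q) z)) (0 : (A → ℂ) →L[ℂ] ℂ) z₀ := by
      have h6 := HasFDerivAt.comp z₀ h2 h4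
      rwa [ContinuousLinearMap.zero_comp] at h6
    have h7 : HasFDerivAt (fun z => nonv_c σ χ (s q) z ^ (2 * (e j + 1)))
        (fderiv ℂ (fun z => nonv_c σ χ (s q) z ^ (2 * (e j + 1))) z₀) z₀ :=
      ((hJd q).pow _).hasFDerivAt
    exact sjets_mul h5 h7 fun v => by
      rw [h1, zero_mul, zero_add]
      exact mul_zero _
  refine ⟨?_, ?_⟩
  · have h1 : ∀ j, P j z₀ = Rm j z₀ + g z₀ := by
      intro j
      rw [hRm, Finset.sum_eq_zero fun q hq => (ht0 j q hq).1]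
      ring
    simp only [h1]
    have h2 := hR0.add_const (g z₀)
    rwa [zero_add] at h2
  · have h1 : ∀ j, fderiv ℂ (P j) z₀ = fderiv ℂ (Rm j) z₀ + fderiv ℂ g z₀ := by
      intro j
      have h2 : HasFDerivAt (Rm j) (fderiv ℂ (Rm j) z₀) z₀ :=
        ((hRd j).differentiableAt (hD.mem_nhds hz₀)).hasFDerivAt
      have h3 : HasFDerivAt g (fderiv ℂ g z₀) z₀ := (hg z₀).hasFDerivAt
      have h4 : HasFDerivAt (fun z => ∑ q ∈ F, t j q z)
          (∑ q ∈ F, (0 : (A → ℂ) →L[ℂ] ℂ)) z₀ :=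
        HasFDerivAt.fun_sum fun q hq => (ht0 j q hq).2
      have h5 := (h2.add h3).add h4
      rw [Finset.sum_const_zero, add_zero] at h5
      have h6 : P j = (Rm j + g) + fun z => ∑ q ∈ F, t j q z := by
        funext z
        show P j z = Rm j z + g z + ∑ q ∈ F, t j q z
        rw [hRm]
        ring
      rw [h6]
      exact h5.fderiv
    simp only [h1]
    have h2 := hR1.add_const (fderiv ℂ g z₀)
    rwa [zero_add] at h2

variable {Γ : Type*} [Group Γ]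

theorem poincare_jets_chi {D : Set (A → ℂ)} (hD : IsOpen D) {R : ℝ} (hR : ∀ z ∈ D, ‖z‖ ≤ R)
    {σ : Γ → (A → ℂ) → (A → ℂ)} (hσ : HolAct D σ)
    (hdisc : ∀ K ⊆ D, IsCompact K → ∃ T : Finset Γ, ∀ γ, (∃ z ∈ K, σ γ z ∈ K) →
      ∃ t ∈ T, ∀ z ∈ D, σ γ z = σ t z)
    {χ : Γ → ℂ} (hχ1 : ∀ γ, ‖χ γ‖ = 1) (hχ2 : ∀ γ δ, χ (γ * δ) = χ γ * χ δ) {m : ℕ} (hm : 0 < m)
    (hχ3 : ∀ γ, Triv D σ γ → χ γ ^ m = 1)
    {z₀ : A → ℂ} (hz₀ : z₀ ∈ D) (hstab : ∀ γ, σ γ z₀ = z₀ → Triv D σ γ) :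
    ∃ l : ℕ, 0 < l ∧ ∃ (f₀ : (A → ℂ) → ℂ) (f : A → (A → ℂ) → ℂ), DifferentiableOn ℂ f₀ D ∧
      (∀ i, DifferentiableOn ℂ (f i) D) ∧
      (∀ γ, ∀ z ∈ D, f₀ (σ γ z) * ((Jac (σ γ) z).det * χ γ) ^ l = f₀ z) ∧
      (∀ i γ, ∀ z ∈ D, f i (σ γ z) * ((Jac (σ γ) z).det * χ γ) ^ l = f i z) ∧ f₀ z₀ ≠ 0 ∧
      (Matrix.of fun i j => fderiv ℂ (fun z => f i z / f₀ z) z₀ (Pi.single j 1)).det ≠ 0 := by
  classical
  obtain ⟨e, he0⟩ : ∃ e : ℕ → ℕ, ∀ j, e j = m * (j + 1) - 1 := ⟨_, fun _ => rfl⟩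
  have he1 : ∀ j, e j + 1 = m * (j + 1) := fun j => by
    rw [he0]
    have h1 : 0 < m * (j + 1) := Nat.mul_pos hm (Nat.succ_pos j)
    omega
  have he2 : ∀ j, m ∣ 2 * (e j + 1) := fun j => ⟨2 * (j + 1), by rw [he1]; ring⟩
  have he : Tendsto e atTop atTop := by
    refine tendsto_atTop_mono (fun j => ?_) tendsto_id
    have h1 := he1 j
    have h2 : 1 * (j + 1) ≤ m * (j + 1) := Nat.mul_le_mul_right _ hm
    show j ≤ e j
    omega
  let S : Setoid Γ := ⟨fun γ δ => ∀ z ∈ D, σ γ z = σ δ z, ⟨fun γ z _ => rfl,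
    fun h z hz => (h z hz).symm, fun h h' z hz => (h z hz).trans (h' z hz)⟩⟩
  obtain ⟨s, hse⟩ : ∃ s : Quotient S → Γ, s = fun q => q.out := ⟨_, rfl⟩
  obtain ⟨p, hpe⟩ : ∃ p : Γ → Quotient S, p = Quotient.mk S := ⟨_, rfl⟩
  have hs : ∀ q q' : Quotient S, (∀ z ∈ D, σ (s q) z = σ (s q') z) → q = q' := by
    intro q q' h
    rw [hse] at h
    rw [← Quotient.out_eq q, ← Quotient.out_eq q']
    exact Quotient.sound h
  have hp : ∀ γ, ∀ z ∈ D, σ (s (p γ)) z = σ γ z := by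
    rw [hse, hpe]
    exact fun γ => Quotient.exact (Quotient.out_eq (Quotient.mk S γ))
  have hjac : ∀ γ, DifferentiableOn ℂ (fun z => (Jac (σ γ) z).det) D := fun γ =>
    jacDet_hol hD (hσ.hol γ)
  have hsum : ∀ K ⊆ D, IsCompact K → ∃ M : Quotient S → ℝ, Summable M ∧
      ∀ q, ∀ z ∈ K, ‖(Jac (σ (s q)) z).det‖ ^ 2 ≤ M q := fun K hK hKc =>
    jac_summable hD hR hσ hdisc (fun {V} hV {ρ} hρ hinj => volume_image hV hρ hinj) s hs hK hKc
  have hq₁ : ∀ z ∈ D, σ (s (p 1)) z = z := fun z hz => by rw [hp 1 z hz, hσ.one z hz]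
  have hχe : ∀ j, χ (s (p 1)) ^ (2 * (e j + 1)) = 1 := by
    intro j
    obtain ⟨k, hk⟩ := he2 j
    rw [hk, pow_mul, hχ3 _ hq₁, one_pow]
  obtain ⟨r, hr, hrD⟩ := Metric.nhds_basis_closedBall.mem_iff.1 (hD.mem_nhds hz₀)
  obtain ⟨M, hM, hMb⟩ := hsum _ hrD (isCompact_closedBall z₀ r)
  have hfin : {q | 1 / 4 ≤ M q}.Finite := by
    have h2 : ∀ᶠ q in cofinite, M q < 1 / 4 :=
      hM.tendsto_cofinite_zero.eventually (gt_mem_nhds (by norm_num))
    rw [eventually_cofinite] at h2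
    refine h2.subset fun q hq => ?_
    rw [Set.mem_ofPred_eq, not_lt]
    exact hq
  obtain ⟨F, hFe⟩ : ∃ F : Finset (Quotient S), F = hfin.toFinset.erase (p 1) := ⟨_, rfl⟩
  have hF1 : p 1 ∉ F := by
    rw [hFe]
    exact Finset.notMem_erase _ _
  have hF : ∀ q, q ∉ F → q ≠ p 1 → M q ≤ 1 / 4 := by
    intro q hq hq1
    by_contra h
    apply hq
    rw [hFe, Finset.mem_erase, Set.Finite.mem_toFinset]
    exact ⟨hq1, (not_le.1 h).le⟩
  -- the polynomials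
  have hY : z₀ ∉ F.image fun q => σ (s q) z₀ := by
    intro h
    obtain ⟨q, hq, hq0⟩ := Finset.mem_image.1 h
    have h1 := hstab (s q) hq0
    apply hF1
    have h2 : q = p 1 := hs q (p 1) fun z hz => by rw [h1 z hz, hq₁ z hz]
    rw [← h2]
    exact hq
  obtain ⟨P₀, hP1, hP2, hP3⟩ := nonv_poly z₀ _ hY
  obtain ⟨g₀, hg₀⟩ : ∃ g₀ : (A → ℂ) → ℂ, g₀ = fun z => P₀ z * P₀ z := ⟨_, rfl⟩
  obtain ⟨g, hg⟩ : ∃ g : A → (A → ℂ) → ℂ, g = fun i z => P₀ z * P₀ z * (z i - z₀ i) := ⟨_, rfl⟩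
  have hg₀d : Differentiable ℂ g₀ := by
    rw [hg₀]
    exact hP1.mul hP1
  have hl : ∀ (i : A) (z : A → ℂ), HasFDerivAt (fun w : A → ℂ => w i - z₀ i)
      (ContinuousLinearMap.proj (R := ℂ) (φ := fun _ : A => ℂ) i) z := fun i z =>
    (ContinuousLinearMap.proj (R := ℂ) (φ := fun _ : A => ℂ) i).hasFDerivAt.sub_const _
  have hgi : ∀ i, g i = fun z => g₀ z * (z i - z₀ i) := fun i => by rw [hg, hg₀]
  have hgd : ∀ i, Differentiable ℂ (g i) := by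
    intro i
    rw [hgi]
    exact hg₀d.mul fun z => (hl i z).differentiableAt
  have hg₀F : ∀ q ∈ F, g₀ (σ (s q) z₀) = 0 ∧
      HasFDerivAt g₀ (0 : (A → ℂ) →L[ℂ] ℂ) (σ (s q) z₀) := by
    intro q hq
    have h1 : P₀ (σ (s q) z₀) = 0 := hP3 _ (Finset.mem_image.2 ⟨q, hq, rfl⟩)
    rw [hg₀]
    refine ⟨by
      show P₀ (σ (s q) z₀) * P₀ (σ (s q) z₀) = 0
      rw [h1, mul_zero], ?_⟩
    exact sjets_mul (hP1 (σ (s q) z₀)).hasFDerivAt (hP1 (σ (s q) z₀)).hasFDerivAt fun v => by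
      rw [h1, zero_mul, zero_add]
      rfl
  have hgF : ∀ i, ∀ q ∈ F, g i (σ (s q) z₀) = 0 ∧
      HasFDerivAt (g i) (0 : (A → ℂ) →L[ℂ] ℂ) (σ (s q) z₀) := by
    intro i q hq
    obtain ⟨h1, h2⟩ := hg₀F q hq
    rw [hgi]
    refine ⟨by
      show g₀ (σ (s q) z₀) * (σ (s q) z₀ i - z₀ i) = 0
      rw [h1, zero_mul], ?_⟩
    exact sjets_mul h2 (hl i (σ (s q) z₀)) fun v => by
      rw [h1, zero_mul, zero_add]
      exact mul_zero _
  have hbound : ∀ h : (A → ℂ) → ℂ, Differentiable ℂ h → ∃ C, ∀ z ∈ D, ‖h z‖ ≤ C := by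
    intro h hh
    obtain ⟨C, hC⟩ := (isCompact_closedBall (0 : A → ℂ) R).exists_bound_of_continuousOn
      hh.continuous.continuousOn
    exact ⟨C, fun z hz => hC z (mem_closedBall_zero_iff.2 (hR z hz))⟩
  -- the series
  obtain ⟨Sr, hSr⟩ : ∃ Sr : ((A → ℂ) → ℂ) → ℕ → (A → ℂ) → ℂ, ∀ h j z, Sr h j z =
      ∑' q, h (σ (s q) z) * nonv_c σ χ (s q) z ^ (2 * (e j + 1)) :=
    ⟨_, fun _ _ _ => rfl⟩
  have hform : ∀ h : (A → ℂ) → ℂ, Differentiable ℂ h → ∀ j, DifferentiableOn ℂ (Sr h j) D ∧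
      ∀ γ, ∀ z ∈ D, Sr h j (σ γ z) * ((Jac (σ γ) z).det * χ γ) ^ (2 * (e j + 1)) = Sr h j z := by
    intro h hh j
    obtain ⟨C, hC⟩ := hbound h hh
    obtain ⟨h1, h2⟩ := nonv_form (χ := χ) (m := m) (l := 2 * (e j + 1))
      hD hσ hjac s p hs hp hsum hχ1 hχ2 hχ3 rfl (he2 j) hh hC
    refine ⟨?_, fun γ z hz => ?_⟩
    · have h3 : Sr h j = fun z =>
          ∑' q, h (σ (s q) z) * nonv_c σ χ (s q) z ^ (2 * (e j + 1)) :=
        funext (hSr h j)
      rw [h3]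
      exact h1
    · have h3 := h2 γ z hz
      have h4 : nonv_c σ χ γ z = (Jac (σ γ) z).det * χ γ := rfl
      rw [h4, ← hSr, ← hSr] at h3
      exact h3
  have hkey : ∀ h : (A → ℂ) → ℂ, Differentiable ℂ h →
      (∀ q ∈ F, h (σ (s q) z₀) = 0 ∧ HasFDerivAt h (0 : (A → ℂ) →L[ℂ] ℂ) (σ (s q) z₀)) →
      Tendsto (fun j => Sr h j z₀) atTop (𝓝 (h z₀)) ∧
      Tendsto (fun j => fderiv ℂ (Sr h j) z₀) atTop (𝓝 (fderiv ℂ h z₀)) := by
    intro h hh hhF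
    obtain ⟨C, hC⟩ := hbound h hh
    exact qjetschi_key hD hσ hjac s (p 1) hq₁ hz₀ hr hrD hM hMb F hF1 hF hh hC hhF hχ1 he hχe
      (fun j z => hSr h j z) (fun j => (hform h hh j).1)
  obtain ⟨k1, k2⟩ := hkey g₀ hg₀d hg₀F
  have hg₀z : g₀ z₀ = 1 := by
    rw [hg₀]
    show P₀ z₀ * P₀ z₀ = 1
    rw [hP2, one_mul]
  have hgz : ∀ i, g i z₀ = 0 := fun i => by
    rw [hgi]
    show g₀ z₀ * (z₀ i - z₀ i) = 0
    rw [sub_self, mul_zero]
  have hgD : ∀ i k, fderiv ℂ (g i) z₀ (Pi.single k 1) = if i = k then 1 else 0 := by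
    intro i k
    have h1 : HasFDerivAt (fun z : A → ℂ => g₀ z * (z i - z₀ i))
        (ContinuousLinearMap.proj (R := ℂ) (φ := fun _ : A => ℂ) i) z₀ :=
      sjets_mul (hg₀d z₀).hasFDerivAt (hl i z₀) fun v => by
        rw [hg₀z, sub_self, zero_mul, add_zero, one_mul]
    have h2 : fderiv ℂ (g i) z₀ = ContinuousLinearMap.proj (R := ℂ) (φ := fun _ : A => ℂ) i := by
      rw [hgi]
      exact h1.fderiv
    rw [h2]
    show (Pi.single k (1 : ℂ) : A → ℂ) i = _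
    rw [Pi.single_apply]
  rw [hg₀z] at k1
  -- the matrices
  obtain ⟨Nm, hNm⟩ : ∃ Nm : ℕ → Matrix A A ℂ, ∀ j, Nm j = Matrix.of fun i k =>
      (Sr g₀ j z₀ * fderiv ℂ (Sr (g i) j) z₀ (Pi.single k 1) -
        Sr (g i) j z₀ * fderiv ℂ (Sr g₀ j) z₀ (Pi.single k 1)) / Sr g₀ j z₀ ^ 2 :=
    ⟨_, fun _ => rfl⟩
  have hNlim : Tendsto Nm atTop (𝓝 1) := by
    refine tendsto_pi_nhds.2 fun i => tendsto_pi_nhds.2 fun k => ?_
    obtain ⟨k3, k4⟩ := hkey (g i) (hgd i) (hgF i)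
    rw [hgz i] at k3
    have a1 : Tendsto (fun j => fderiv ℂ (Sr (g i) j) z₀ (Pi.single k 1)) atTop
        (𝓝 (fderiv ℂ (g i) z₀ (Pi.single k 1))) :=
      ((ContinuousLinearMap.apply ℂ ℂ (Pi.single k (1 : ℂ) : A → ℂ)).continuous.tendsto _).comp k4
    have a2 : Tendsto (fun j => fderiv ℂ (Sr g₀ j) z₀ (Pi.single k 1)) atTop
        (𝓝 (fderiv ℂ g₀ z₀ (Pi.single k 1))) :=
      ((ContinuousLinearMap.apply ℂ ℂ (Pi.single k (1 : ℂ) : A → ℂ)).continuous.tendsto _).comp k2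
    rw [hgD] at a1
    have a3 := ((k1.mul a1).sub (k3.mul a2)).div (k1.pow 2) (by norm_num)
    have a4 : (1 * (if i = k then (1 : ℂ) else 0) - 0 * fderiv ℂ g₀ z₀ (Pi.single k 1)) / 1 ^ 2 =
        (1 : Matrix A A ℂ) i k := by
      rw [Matrix.one_apply]
      ring
    rw [a4] at a3
    have a5 : (fun j => Nm j i k) = fun j =>
        (Sr g₀ j z₀ * fderiv ℂ (Sr (g i) j) z₀ (Pi.single k 1) -
        Sr (g i) j z₀ * fderiv ℂ (Sr g₀ j) z₀ (Pi.single k 1)) / Sr g₀ j z₀ ^ 2 := by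
      funext j
      rw [hNm]
      rfl
    rw [a5]
    exact a3
  have hdet : Tendsto (fun j => (Nm j).det) atTop (𝓝 1) := by
    have h1 : Continuous fun N : Matrix A A ℂ => N.det := continuous_id.matrix_det
    have h2 := (h1.tendsto 1).comp hNlim
    rw [Matrix.det_one] at h2
    exact h2
  obtain ⟨j, hj1, hj2⟩ := ((k1.eventually_ne one_ne_zero).and
    (hdet.eventually_ne one_ne_zero)).exists
  refine ⟨2 * (e j + 1), by omega, Sr g₀ j, fun i => Sr (g i) j, (hform g₀ hg₀d j).1,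
    fun i => (hform (g i) (hgd i) j).1, (hform g₀ hg₀d j).2,
    fun i => (hform (g i) (hgd i) j).2, hj1, ?_⟩
  have hfinal : (Matrix.of fun i k => fderiv ℂ (fun z => Sr (g i) j z / Sr g₀ j z) z₀
      (Pi.single k 1)) = Nm j := by
    rw [hNm]
    ext i k
    exact sjets_div (((hform (g i) (hgd i) j).1).differentiableAt (hD.mem_nhds hz₀))
      (((hform g₀ hg₀d j).1).differentiableAt (hD.mem_nhds hz₀)) hj1 _
  rw [hfinal]
  exact hj2

end Pool.Agent.H906.BD.S
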