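import Pool.Agent.H906.BD.Q.Vert
import Pool.Agent.H906.BD.P.Fib

/-! # Pluricanonical forms are constant along the fibres, `κ(X) ≤ a` -/

set_option linter.unusedSectionVars false

open Filter Topology Set Metric

namespace Pool.Agent.H906.BD.Q

variable {A B : Type*} [Fintype A] [Fintype B] [DecidableEq A] [DecidableEq B]
variable {Δ : Type*} [Group Δ]

theorem card_le_of_fibre {p : ℕ} {h : Fin (p + 1) → (A ⊕ B → ℂ) → ℂ} {x₀ : A ⊕ B → ℂ}
    (hv : ∀ i, DifferentiableAt ℂ (h i) x₀ ∧ ∀ w : B → ℂ, fderiv ℂ (h i) x₀ (Sum.elim 0 w) = 0)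
    (h0 : h 0 x₀ ≠ 0)
    (hli : LinearIndependent ℂ fun i : Fin p => fderiv ℂ (fun x => h i.succ x / h 0 x) x₀) :
    p ≤ Fintype.card A := by
  have hq : ∀ i : Fin p, ∀ w : B → ℂ,
      fderiv ℂ (fun x => h i.succ x / h 0 x) x₀ (Sum.elim 0 w) = 0 := by
    intro i w
    have h1 : HasFDerivAt (fun x => h i.succ x * (h 0 x)⁻¹)
        (h i.succ x₀ • (-((h 0 x₀ ^ 2)⁻¹) • fderiv ℂ (h 0) x₀) + (h 0 x₀)⁻¹ • fderiv ℂ (h i.succ) x₀)
        x₀ := by
      have e1 := (hv i.succ).1.hasFDerivAt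
      have e2 := (hasDerivAt_inv h0).comp_hasFDerivAt x₀ (hv 0).1.hasFDerivAt
      exact e1.mul e2
    have h2 : (fun x => h i.succ x / h 0 x) = fun x => h i.succ x * (h 0 x)⁻¹ := by
      funext x
      rw [div_eq_mul_inv]
    rw [h2, h1.fderiv]
    simp only [_root_.add_apply, _root_.smul_apply, (hv _).2 w,
      smul_zero, add_zero]
  set ι : (A → ℂ) →L[ℂ] (A ⊕ B → ℂ) := ContinuousLinearMap.pi fun i => Sum.elim
    (fun a => ContinuousLinearMap.proj (R := ℂ) (φ := fun _ : A => ℂ) a) (fun _ => 0) i with hι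
  have hιe : ∀ z : A → ℂ, ι z = Sum.elim z 0 := by
    intro z
    funext i
    rcases i with i | i <;> rfl
  set T : ((A → ℂ) →ₗ[ℂ] ℂ) →ₗ[ℂ] ((A ⊕ B → ℂ) →ₗ[ℂ] ℂ) :=
    LinearMap.lcomp ℂ ℂ (prAL (A := A) (B := B)).toLinearMap with hT
  have hli2 : LinearIndependent ℂ fun i : Fin p =>
      (fderiv ℂ (fun x => h i.succ x / h 0 x) x₀).toLinearMap :=
    hli.map' (ContinuousLinearMap.coeLM ℂ) (LinearMap.ker_eq_bot.2 ContinuousLinearMap.coe_injective)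
  have hli3 : LinearIndependent ℂ fun i : Fin p =>
      ((fderiv ℂ (fun x => h i.succ x / h 0 x) x₀).comp ι).toLinearMap := by
    refine LinearIndependent.of_comp T ?_
    have e : (T ∘ fun i : Fin p =>
        ((fderiv ℂ (fun x => h i.succ x / h 0 x) x₀).comp ι).toLinearMap) =
        fun i : Fin p => (fderiv ℂ (fun x => h i.succ x / h 0 x) x₀).toLinearMap := by
      funext i
      refine LinearMap.ext fun x => ?_
      show fderiv ℂ (fun x => h i.succ x / h 0 x) x₀ (ι (prAL x)) =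
        fderiv ℂ (fun x => h i.succ x / h 0 x) x₀ x
      have e2 : x = ι (prAL x) + (Sum.elim (0 : A → ℂ) (prB x) : A ⊕ B → ℂ) := by
        rw [hιe]
        funext j
        rcases j with j | j
        · show x (Sum.inl j) = x (Sum.inl j) + 0
          rw [add_zero]
        · show x (Sum.inr j) = 0 + x (Sum.inr j)
          rw [zero_add]
      conv_rhs => rw [e2]
      rw [map_add, hq i, add_zero]
    rw [e]
    exact hli2
  have h3 := hli3.fintype_card_le_finrank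
  rw [Fintype.card_fin] at h3
  refine h3.trans ?_
  have h4 : Module.finrank ℂ ((A → ℂ) →ₗ[ℂ] ℂ) = Fintype.card A := by
    rw [show Module.finrank ℂ ((A → ℂ) →ₗ[ℂ] ℂ) = Module.finrank ℂ (Module.Dual ℂ (A → ℂ)) from rfl,
      Subspace.dual_finrank_eq, Module.finrank_fintype_fun_eq_card]
  exact h4.le

/-- pluricanonical forms are constant along the fibres -/
theorem canonical_vert {D : Set (A → ℂ)} (hD : IsOpen D)
    {ρ : Δ → (A ⊕ B → ℂ) → (A ⊕ B → ℂ)}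
    {L : AddSubgroup (B → ℂ)} (hL : S.IsLattice L)
    (hLt : ∀ v ∈ L, ∃ δ, ∀ x ∈ Tot D B, ρ δ x = Sum.elim (prA x) (prB x + v)) {l : ℕ}
    {F : (A ⊕ B → ℂ) → ℂ} (hF : DifferentiableOn ℂ F (Tot D B))
    (hFa : ∀ δ, ∀ x ∈ Tot D B, F (ρ δ x) * (Jac (ρ δ) x).det ^ l = F x) {x₀ : A ⊕ B → ℂ}
    (hx₀ : x₀ ∈ Tot D B) :
    DifferentiableAt ℂ F x₀ ∧ ∀ w : B → ℂ, fderiv ℂ F x₀ (Sum.elim 0 w) = 0 := by
  have hU : IsOpen (Tot D B) := isOpen_tot hD
  have hd : ∀ x ∈ Tot D B, DifferentiableAt ℂ F x := fun x hx =>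
    (hF x hx).differentiableAt (hU.mem_nhds hx)
  refine ⟨hd x₀ hx₀, fun w => ?_⟩
  have hin : (Sum.elim 0 w : A ⊕ B → ℂ) = S.pfib_in A B w := by
    rw [S.pfib_in_apply]
    rfl
  rw [hin]
  have hmem : ∀ v : B → ℂ, x₀ + S.pfib_in A B v ∈ Tot D B := by
    intro v
    have : prA (x₀ + S.pfib_in A B v) = prA x₀ := by
      rw [← S.pfib_in_add]
      rfl
    show prA (x₀ + S.pfib_in A B v) ∈ D
    rw [this]
    exact hx₀
  have hline : ∀ v : B → ℂ, HasFDerivAt (fun v : B → ℂ => x₀ + S.pfib_in A B v)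
      (S.pfib_in A B) v := fun v => (S.pfib_in A B).hasFDerivAt.const_add x₀
  have hg : Differentiable ℂ fun v : B → ℂ => F (x₀ + S.pfib_in A B v) := fun v =>
    ((hd _ (hmem v)).hasFDerivAt.comp v (hline v)).differentiableAt
  have hp : ∀ v ∈ L, ∀ u, F (x₀ + S.pfib_in A B (u + v)) = F (x₀ + S.pfib_in A B u) := by
    intro v hv u
    obtain ⟨δ, hδ⟩ := hLt v hv
    have h1 := hFa δ (x₀ + S.pfib_in A B u) (hmem u)
    rw [qvert_jac hD hδ (hmem u), Matrix.det_one, one_pow, mul_one, hδ _ (hmem u), S.pfib_in_add,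
      add_assoc, ← map_add] at h1
    exact h1
  have h0 : HasFDerivAt (fun v : B → ℂ => F (x₀ + S.pfib_in A B v))
      ((fderiv ℂ F (x₀ + S.pfib_in A B 0)).comp (S.pfib_in A B)) 0 :=
    (hd _ (hmem 0)).hasFDerivAt.comp 0 (hline 0)
  have h0' : HasFDerivAt (fun v : B → ℂ => F (x₀ + S.pfib_in A B v))
      (0 : (B → ℂ) →L[ℂ] ℂ) 0 := by
    have : (fun v : B → ℂ => F (x₀ + S.pfib_in A B v)) = fun _ => F (x₀ + S.pfib_in A B 0) :=
      funext fun u => S.storus_const hL hg hp u 0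
    rw [this]
    exact hasFDerivAt_const _ _
  have h2 := h0.unique h0'
  have h3 := congrArg (fun f : (B → ℂ) →L[ℂ] ℂ => f w) h2
  simpa using h3

theorem kodaira_le {D : Set (A → ℂ)} (hD : IsOpen D)
    {ρ : Δ → (A ⊕ B → ℂ) → (A ⊕ B → ℂ)}
    {L : AddSubgroup (B → ℂ)} (hL : S.IsLattice L)
    (hLt : ∀ v ∈ L, ∃ δ, ∀ x ∈ Tot D B, ρ δ x = Sum.elim (prA x) (prB x + v)) {l p : ℕ}
    {F : Fin (p + 1) → (A ⊕ B → ℂ) → ℂ}
    (hF : ∀ i, DifferentiableOn ℂ (F i) (Tot D B) ∧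
      ∀ δ, ∀ x ∈ Tot D B, F i (ρ δ x) * (Jac (ρ δ) x).det ^ l = F i x) {x₀ : A ⊕ B → ℂ}
    (hx₀ : x₀ ∈ Tot D B) (h0 : F 0 x₀ ≠ 0)
    (hli : LinearIndependent ℂ fun i : Fin p => fderiv ℂ (fun x => F i.succ x / F 0 x) x₀) :
    p ≤ Fintype.card A :=
  card_le_of_fibre (fun i => canonical_vert hD hL hLt (hF i).1 (hF i).2 hx₀) h0 hli

end Pool.Agent.H906.BD.Q
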