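import Pool.Agent.H906.BD.Q.Defs
import Pool.Agent.H906.BD.S.Torus
import Pool.Agent.H906.BD.Contra

/-! # Q02 LogPsh: log-plurisubharmonic functions: Liouville theorem along the fibres, zero sets

(1) `logpsh_const`: `f` log-psh on `Tot D B = D × ℂ^B`, `f (z, w + v) = f (z, w)` for `v` in a lattice `L` of `ℂ^B`. Then
`f (z, w)` does not depend on `w`. Proof: fix `z ∈ D`. Let `P` be a compact parallelepiped of `ℂ^B` meeting all classes
modulo `L` (real basis consisting of elements of `L`: `storus_basis`, `ZSpan.fract`, see the proof of `storus_const` in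
`S/Torus.lean`). `w ↦ f (z, w)` is upper semicontinuous on `ℂ^B`, so it attains its maximum `Mx` on `P` at some `w₀`, and
by periodicity this is the maximum over `ℂ^B`. If `Mx = 0` we are done (`f ≥ 0`). Suppose `Mx > 0` and
`f (z, w₁) < Mx` for some `w₁`. Let `v = (0, w₁ - w₀)`, `x = (z, w₀)`. By upper semicontinuity there are `ε > 0`, `η > 0` with
`f (x + e^{iθ} v) ≤ Mx * exp (-ε)` for `|θ| ≤ η` (if `f (z, w₁) = 0` still fine). Take a continuous `c` with `c = log Mx` for
`θ ≥ η`, `c ≤ log Mx` everywhere, `c ≥ log Mx - ε` on `[-η, η]` and `c (0) = log Mx - ε`, e.g.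
`c θ = log Mx - ε * max 0 (1 - |θ| / η)` (for `θ` outside `[-η, η]` this is `log Mx`; note the majorant condition must hold
for ALL real `θ`: fine). Its mean over `[0, 2π]` is `< log Mx`: contradiction with the submean property.
(2) `logpsh_dense`: `U` open preconnected, `f` log-psh on `U`, `f x₀ ≠ 0` for some `x₀ ∈ U`; then `{x ∈ U | f x ≠ 0}` is
dense in `U`. Proof: let `W` be the interior of `{x ∈ U | f x = 0}`. `W` is open; we show that `W` is closed in `U`: let
`x ∈ U ∩ closure W`, `closedBall x (4 r) ⊆ U`, `w ∈ W` with `‖w - x‖ < r`. For `y ∈ ball x r` let `v = w - y`, so that the disc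
`y + t v`, `|t| ≤ 1` lies in `closedBall x (4 r)` and on it `f ≤ C` (`f` is bounded above on the compact ball: upper
semicontinuous), the point for `θ = 0` is `w ∈ W`, so `f (y + e^{iθ} v) = 0` for `|θ| ≤ η`. For `k → ∞` take
`c θ = log (C + 1) - k * max 0 (1 - |θ| / η)`: `f y ≤ exp (log (C+1) - k η' )` with a fixed `η' > 0`, so `f y = 0`. Hence
`ball x r ⊆ {f = 0}` and `x ∈ W`. As `U` is preconnected, `W = ∅` or `W = U`; the latter is excluded by `x₀`.
`W = ∅` is the claim. -/

set_option linter.unusedSectionVars false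

open Filter Topology Set Metric

namespace Pool.Agent.H906.BD.Q

variable {A B N : Type*} [Fintype A] [Fintype B] [DecidableEq A] [DecidableEq B] [Fintype N]
  [DecidableEq N]

/-- the sub-mean-value property with a smaller bound near the angle zero -/
theorem qlogpsh_circle {U : Set (N → ℂ)} {f : (N → ℂ) → ℝ} (hf : IsLogPsh U f) {x v : N → ℂ}
    (hd : ∀ t : ℂ, ‖t‖ ≤ 1 → x + t • v ∈ U) {a K η : ℝ} (hη0 : 0 < η) (hη1 : η ≤ 1) (hK : 0 ≤ K)
    (h1 : ∀ θ : ℝ, f (x + Complex.exp (θ * Complex.I) • v) ≤ Real.exp a)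
    (h2 : ∀ θ : ℝ, |θ| ≤ η → f (x + Complex.exp (θ * Complex.I) • v) ≤ Real.exp (a - K)) :
    f x ≤ Real.exp (a - K * η / (8 * Real.pi)) := by
  obtain ⟨b, hb⟩ : ∃ b : ℝ → ℝ, b = fun θ => max 0 (1 - |θ| / η) := ⟨_, rfl⟩
  have hbc : Continuous b := by
    rw [hb]
    exact continuous_const.max (continuous_const.sub (continuous_abs.div_const η))
  have hb0 : ∀ θ, 0 ≤ b θ := fun θ => by
    rw [hb]
    exact le_max_left _ _
  have hπ := Real.pi_gt_three
  have hi : ∀ s t : ℝ, IntervalIntegrable b MeasureTheory.volume s t :=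
    fun s t => hbc.intervalIntegrable s t
  have hint : η / 4 ≤ ∫ θ in (0 : ℝ)..(2 * Real.pi), b θ := by
    rw [← intervalIntegral.integral_add_adjacent_intervals (hi 0 (η / 2)) (hi (η / 2) _)]
    have h3 : (∫ _θ in (0 : ℝ)..(η / 2), (1 / 2 : ℝ)) ≤ ∫ θ in (0 : ℝ)..(η / 2), b θ := by
      refine intervalIntegral.integral_mono_on (by linarith)
        (continuous_const.intervalIntegrable _ _) (hi _ _) fun θ hθ => ?_
      rw [hb]
      refine le_trans ?_ (le_max_right _ _)
      rw [abs_of_nonneg hθ.1]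
      have h4 : θ / η ≤ 1 / 2 := by
        rw [div_le_iff₀ hη0]
        linarith [hθ.2]
      linarith
    have h5 : 0 ≤ ∫ θ in (η / 2)..(2 * Real.pi), b θ :=
      intervalIntegral.integral_nonneg (by linarith) fun θ _ => hb0 θ
    rw [intervalIntegral.integral_const, smul_eq_mul] at h3
    linarith
  have hmain := hf.2.2 x v hd (fun θ => a - K * b θ) (continuous_const.sub (continuous_const.mul hbc))
    (fun θ => by
      rcases le_or_gt |θ| η with h | h
      · refine (h2 θ h).trans (Real.exp_le_exp.2 ?_)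
        have h3 : b θ ≤ 1 := by
          rw [hb]
          refine max_le zero_le_one ?_
          have : 0 ≤ |θ| / η := by positivity
          linarith
        nlinarith
      · refine (h1 θ).trans (Real.exp_le_exp.2 ?_)
        have h3 : b θ = 0 := by
          rw [hb]
          refine max_eq_left ?_
          have : 1 ≤ |θ| / η := by
            rw [le_div_iff₀ hη0]
            linarith
          linarith
        rw [h3, mul_zero, sub_zero])
  refine hmain.trans (Real.exp_le_exp.2 ?_)
  rw [intervalIntegral.integral_sub (continuous_const.intervalIntegrable _ _)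
    ((hi _ _).const_mul K), intervalIntegral.integral_const, intervalIntegral.integral_const_mul,
    smul_eq_mul, sub_zero, div_le_iff₀ (by positivity)]
  have h3 : (a - K * η / (8 * Real.pi)) * (2 * Real.pi) = 2 * Real.pi * a - K * (η / 4) := by
    field_simp
    ring
  rw [h3]
  have h4 := mul_le_mul_of_nonneg_left hint hK
  linarith

theorem logpsh_const {D : Set (A → ℂ)} {f : (A ⊕ B → ℂ) → ℝ} (hf : IsLogPsh (Tot D B) f)
    {L : AddSubgroup (B → ℂ)} (hL : S.IsLattice L)
    (hper : ∀ v ∈ L, ∀ x ∈ Tot D B, f (Sum.elim (prA x) (prB x + v)) = f x)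
    {z : A → ℂ} (hz : z ∈ D) (w w' : B → ℂ) : f (Sum.elim z w) = f (Sum.elim z w') := by
  have hmem : ∀ w : B → ℂ, (Sum.elim z w : A ⊕ B → ℂ) ∈ Tot D B := fun w => hz
  have hcont : Continuous fun w : B → ℂ => (Sum.elim z w : A ⊕ B → ℂ) := by
    refine continuous_pi fun i => ?_
    cases i with
    | inl i => exact continuous_const
    | inr i => exact continuous_apply i
  obtain ⟨F, hF⟩ : ∃ F : (B → ℂ) → ℝ, F = fun w => f (Sum.elim z w) := ⟨_, rfl⟩
  have hF0 : ∀ w, 0 ≤ F w := fun w => by
    rw [hF]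
    exact hf.1 _ (hmem w)
  have husc : UpperSemicontinuous F := by
    intro u y hy
    rw [hF] at hy ⊢
    have h1 := hf.2.1 _ (hmem u) y hy
    have h2 : Tendsto (fun w : B → ℂ => (Sum.elim z w : A ⊕ B → ℂ)) (𝓝 u)
        (𝓝[Tot D B] (Sum.elim z u)) :=
      tendsto_nhdsWithin_iff.2 ⟨hcont.tendsto u, Eventually.of_forall hmem⟩
    exact h2.eventually h1
  have hFp : ∀ v ∈ L, ∀ u, F (u + v) = F u := by
    intro v hv u
    rw [hF]
    exact hper v hv (Sum.elim z u) (hmem u)
  -- the maximum
  obtain ⟨t, _, bs, hbs⟩ := S.storus_basis hL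
  obtain ⟨R, hR⟩ : ∃ R : ℝ, R = ∑ i, ‖bs i‖ := ⟨_, rfl⟩
  have hR0 : 0 ≤ R := by
    rw [hR]
    exact Finset.sum_nonneg fun i _ => norm_nonneg _
  obtain ⟨w₀, -, hmax⟩ := (husc.upperSemicontinuousOn (closedBall (0 : B → ℂ) R)).exists_isMaxOn
    ⟨0, mem_closedBall_self hR0⟩ (isCompact_closedBall _ _)
  have hall : ∀ u, F u ≤ F w₀ := by
    intro u
    have h1 : ZSpan.fract bs u ∈ closedBall (0 : B → ℂ) R := by
      rw [mem_closedBall_zero_iff, hR]
      exact ZSpan.norm_fract_le bs u
    have h2 : ((ZSpan.floor bs u : Submodule.span ℤ (range bs)) : B → ℂ) ∈ L := by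
      have h1 : Submodule.span ℤ (range bs) ≤ AddSubgroup.toIntSubmodule L := by
        rw [Submodule.span_le]
        rintro _ ⟨i, rfl⟩
        exact hbs i
      exact h1 (ZSpan.floor bs u).2
    have h3 := hFp _ h2 (ZSpan.fract bs u)
    rw [ZSpan.fract_apply, sub_add_cancel] at h3
    rw [h3, ← ZSpan.fract_apply]
    exact hmax h1
  have hconst : ∀ u, F u = F w₀ := by
    intro w₁
    by_contra hcon
    have hlt : F w₁ < F w₀ := lt_of_le_of_ne (hall w₁) hcon
    have hM : 0 < F w₀ := lt_of_le_of_lt (hF0 w₁) hlt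
    obtain ⟨r, hr1, hr2⟩ := exists_between hlt
    have hr0 : 0 < r := lt_of_le_of_lt (hF0 w₁) hr1
    have hpt : ∀ c : ℂ, (Sum.elim z w₀ : A ⊕ B → ℂ) + c • (Sum.elim 0 (w₁ - w₀) : A ⊕ B → ℂ) =
        Sum.elim z (w₀ + c • (w₁ - w₀)) := by
      intro c
      funext i
      cases i with
      | inl i => simp
      | inr i => simp
    have hpath : Tendsto (fun θ : ℝ => w₀ + Complex.exp (θ * Complex.I) • (w₁ - w₀)) (𝓝 0)
        (𝓝 w₁) := by
      have h1 : Continuous fun θ : ℝ => w₀ + Complex.exp (θ * Complex.I) • (w₁ - w₀) := by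
        fun_prop
      have h2 := h1.tendsto 0
      have h3 : w₀ + Complex.exp (((0 : ℝ) : ℂ) * Complex.I) • (w₁ - w₀) = w₁ := by
        rw [Complex.ofReal_zero, zero_mul, Complex.exp_zero, one_smul, add_sub_cancel]
      rw [h3] at h2
      exact h2
    obtain ⟨δ, hδ0, hδ⟩ := Metric.eventually_nhds_iff.1 (hpath.eventually (husc w₁ r hr1))
    have h1 := qlogpsh_circle hf (x := Sum.elim z w₀) (v := Sum.elim 0 (w₁ - w₀))
      (a := Real.log (F w₀)) (K := Real.log (F w₀) - Real.log r) (η := min 1 (δ / 2))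
      (fun c _ => by rw [hpt]; exact hmem _) (lt_min one_pos (by linarith)) (min_le_left _ _)
      (sub_nonneg.2 (Real.log_le_log hr0 hr2.le))
      (fun θ => by
        rw [hpt, Real.exp_log hM]
        have h2 := hall (w₀ + Complex.exp (θ * Complex.I) • (w₁ - w₀))
        rw [hF] at h2 ⊢
        exact h2)
      (fun θ hθ => by
        rw [hpt, sub_sub_cancel, Real.exp_log hr0]
        have h2 : dist θ 0 < δ := by
          rw [Real.dist_eq, sub_zero]
          have := min_le_right 1 (δ / 2)
          linarith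
        have h3 := (hδ h2).le
        rw [hF] at h3
        exact h3)
    have h2 : f (Sum.elim z w₀) = F w₀ := by rw [hF]
    rw [h2] at h1
    have h3 : 0 < (Real.log (F w₀) - Real.log r) * min 1 (δ / 2) / (8 * Real.pi) := by
      have h4 : 0 < Real.log (F w₀) - Real.log r := sub_pos.2 (Real.log_lt_log hr0 hr2)
      have h5 : 0 < min 1 (δ / 2) := lt_min one_pos (by linarith)
      positivity
    have h4 : Real.exp (Real.log (F w₀) - (Real.log (F w₀) - Real.log r) * min 1 (δ / 2) /
        (8 * Real.pi)) < F w₀ := by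
      conv_rhs => rw [← Real.exp_log hM]
      exact Real.exp_lt_exp.2 (by linarith)
    linarith
  have h1 := (hconst w).trans (hconst w').symm
  rw [hF] at h1
  exact h1

theorem logpsh_dense {U : Set (N → ℂ)} (hU : IsOpen U) (hc : IsPreconnected U)
    {f : (N → ℂ) → ℝ} (hf : IsLogPsh U f) (hne : ∃ x ∈ U, f x ≠ 0) :
    U ⊆ closure {x | x ∈ U ∧ f x ≠ 0} := by
  intro x₁ hx₁
  by_contra hcon
  obtain ⟨x₀, hx₀, hfx₀⟩ := hne
  have hopen : IsOpen (interior {x | f x = 0}) := isOpen_interior
  have hne1 : (U ∩ interior {x | f x = 0}).Nonempty := by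
    refine ⟨x₁, hx₁, ?_⟩
    rw [mem_interior_iff_mem_nhds]
    have h1 : (closure {x | x ∈ U ∧ f x ≠ 0})ᶜ ∈ 𝓝 x₁ := isClosed_closure.isOpen_compl.mem_nhds hcon
    filter_upwards [h1, hU.mem_nhds hx₁] with y hy1 hy2
    by_contra h2
    exact hy1 (subset_closure ⟨hy2, h2⟩)
  have hcl : closure (interior {x | f x = 0}) ∩ U ⊆ interior {x | f x = 0} := by
    rintro x ⟨hx, hxU⟩
    obtain ⟨r, hr, hrU⟩ := Metric.nhds_basis_closedBall.mem_iff.1 (hU.mem_nhds hxU)
    obtain ⟨w, hw, hwx⟩ := Metric.mem_closure_iff.1 hx (r / 4) (by linarith)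
    obtain ⟨C, hC⟩ : ∃ C : ℝ, ∀ y ∈ closedBall x r, f y ≤ C := by
      obtain ⟨m, -, hm⟩ := (hf.2.1.mono hrU).exists_isMaxOn
        ⟨x, mem_closedBall_self hr.le⟩ (isCompact_closedBall _ _)
      exact ⟨f m, fun y hy => hm hy⟩
    have hC0 : 0 ≤ C := (hf.1 x hxU).trans (hC x (mem_closedBall_self hr.le))
    rw [mem_interior_iff_mem_nhds]
    refine Filter.mem_of_superset (ball_mem_nhds x (by linarith : 0 < r / 4)) fun y hy => ?_
    have hdisc : ∀ t : ℂ, ‖t‖ ≤ 1 → y + t • (w - y) ∈ closedBall x r := by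
      intro t ht
      rw [mem_closedBall]
      have h1 : dist y x < r / 4 := hy
      have h2 : dist w y ≤ dist w x + dist x y := dist_triangle _ _ _
      rw [dist_comm w x, dist_comm x y] at h2
      have h3 : dist (y + t • (w - y)) y ≤ dist w y := by
        rw [dist_eq_norm, add_sub_cancel_left, norm_smul, dist_eq_norm]
        exact mul_le_of_le_one_left (norm_nonneg _) ht
      have h4 := dist_triangle (y + t • (w - y)) y x
      linarith
    have hexp : ∀ θ : ℝ, ‖Complex.exp (θ * Complex.I)‖ ≤ 1 := fun θ =>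
      (Complex.norm_exp_ofReal_mul_I θ).le
    have hpath : Tendsto (fun θ : ℝ => y + Complex.exp (θ * Complex.I) • (w - y)) (𝓝 0)
        (𝓝 w) := by
      have h1 : Continuous fun θ : ℝ => y + Complex.exp (θ * Complex.I) • (w - y) := by
        fun_prop
      have h2 := h1.tendsto 0
      have h3 : y + Complex.exp (((0 : ℝ) : ℂ) * Complex.I) • (w - y) = w := by
        rw [Complex.ofReal_zero, zero_mul, Complex.exp_zero, one_smul, add_sub_cancel]
      rw [h3] at h2
      exact h2
    obtain ⟨δ, hδ0, hδ⟩ := Metric.eventually_nhds_iff.1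
      (hpath.eventually (mem_interior_iff_mem_nhds.1 hw))
    obtain ⟨η, hη⟩ : ∃ η : ℝ, η = min 1 (δ / 2) := ⟨_, rfl⟩
    have hη0 : 0 < η := by
      rw [hη]
      exact lt_min one_pos (by linarith)
    have hη1 : η ≤ 1 := by
      rw [hη]
      exact min_le_left _ _
    have hηδ : η < δ := by
      rw [hη]
      have := min_le_right 1 (δ / 2)
      linarith
    have hyU : y ∈ U := hrU (ball_subset_closedBall (ball_subset_ball (by linarith) hy))
    have hbd : ∀ K : ℝ, 0 ≤ K → f y ≤ Real.exp (Real.log (C + 1) - K * η / (8 * Real.pi)) := by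
      intro K hK
      refine qlogpsh_circle hf (x := y) (v := w - y) (fun t ht => hrU (hdisc t ht)) hη0 hη1 hK
        (fun θ => ?_) fun θ hθ => ?_
      · rw [Real.exp_log (by linarith)]
        have := hC _ (hdisc _ (hexp θ))
        linarith
      · have h2 : dist θ 0 < δ := by
          rw [Real.dist_eq, sub_zero]
          linarith
        have h3 : f (y + Complex.exp (θ * Complex.I) • (w - y)) = 0 := hδ h2
        rw [h3]
        exact (Real.exp_pos _).le
    have hlim : Tendsto (fun K : ℝ => Real.exp (Real.log (C + 1) - K * η / (8 * Real.pi))) atTop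
        (𝓝 0) := by
      have h1 : Tendsto (fun K : ℝ => -(K * (η / (8 * Real.pi)))) atTop atBot :=
        tendsto_neg_atTop_atBot.comp (tendsto_id.atTop_mul_const (by positivity))
      have h2 : Tendsto (fun K : ℝ => Real.log (C + 1) + -(K * (η / (8 * Real.pi)))) atTop atBot :=
        tendsto_atBot_add_const_left atTop (Real.log (C + 1)) h1
      have h3 : (fun K : ℝ => Real.exp (Real.log (C + 1) - K * η / (8 * Real.pi))) =
          Real.exp ∘ fun K : ℝ => Real.log (C + 1) + -(K * (η / (8 * Real.pi))) := by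
        funext K
        simp only [Function.comp_apply]
        rw [sub_eq_add_neg, mul_div_assoc]
      rw [h3]
      exact Real.tendsto_exp_atBot.comp h2
    have h1 : f y ≤ 0 := ge_of_tendsto hlim (eventually_ge_atTop 0 |>.mono hbd)
    exact le_antisymm h1 (hf.1 y hyU)
  have hsub := hc.subset_of_closure_inter_subset hopen hne1 hcl
  have hfin : x₀ ∈ {x | f x = 0} := interior_subset (hsub hx₀)
  exact hfx₀ hfin

end Pool.Agent.H906.BD.Q
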