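import Pool.Agent.H906.BD.Q.LogPsh
import Pool.Agent.H906.BD.Final

/-! # Q03 Vert: sections of the multiples of `A` are constant along the fibres

Hypotheses: the translations of the fibres by the elements
of a lattice `L` of `ℂ^B` are induced by elements of `Δ` (`hLt`); `A` is an effective divisor (`hA`), `m K_X - A` is
pseudo-effective (`hE`), `h` is a section of `k A`.
Proof of `vert`. (1) For `v ∈ L` and `δ` from `hLt`, `ρ δ x = x + (0, v)` near every point of the open set `Tot D B`, so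
`Jac (ρ δ) x = 1` and `hE.trans` gives the periodicity of `E`; by `logpsh_const` `E (z, w) = E (z, 0)`.
(2) Let `z ∈ D` with `E (z, 0) ≠ 0`. Then for all `w` and `p = (z, w)`: `E p ≤ C ‖s p p‖` by `hE.bound` (an eventually property
holds at the point), so `s p p ≠ 0`. So `w ↦ h (z, w)` is entire: near `p` we have `s p x ≠ 0` and `h x = t x / s p x ^ k`.
It is periodic under `L` (`hh.invariant`), hence constant (`S.storus_const`). So at all points `x` of `Tot D B` with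
`E (x) ≠ 0` the function `h` is differentiable (same formula) and `fderiv ℂ h x (Sum.elim 0 w) = 0`.
(3) Let `x₀ ∈ Tot D B`, `s x₀ x₀ ≠ 0`. Near `x₀` the function `h = t / s x₀ ^ k` is holomorphic, and
`x ↦ fderiv ℂ h x (Sum.elim 0 w)` is continuous near `x₀` (the derivative of a holomorphic function is
holomorphic). By `logpsh_dense` (with `isPreconnected_tot`, `isOpen_tot` of `BD/Contra.lean`) it vanishes on a dense
subset, so it vanishes at `x₀`.
Proof of `iitaka_le`: the differentials at `x₀` of the quotients `h i.succ / h 0` vanish on the vectors `Sum.elim 0 w`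
(quotient rule), so they are determined by their restrictions to `A → ℂ` and `p` linearly independent ones force
`p ≤ card A` (`LinearIndependent.fintype_card_le_finrank` after composing with the injective map from the functionals
vanishing on `Sum.elim 0 w` to the dual of `A → ℂ`; e.g. write `φ = φ ∘ i ∘ prAL`, `i z = Sum.elim z 0`, so the family
`φ_i ∘ i` is linearly independent in `(A → ℂ) →L[ℂ] ℂ`, of dimension `card A`). -/

set_option linter.unusedSectionVars false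

open Filter Topology Set Metric

namespace Pool.Agent.H906.BD.Q

variable {A B : Type*} [Fintype A] [Fintype B] [DecidableEq A] [DecidableEq B]
variable {Δ : Type*} [Group Δ]

/-- near a point of `U` with `s p p ≠ 0` sections are holomorphic -/
theorem qvert_diff {N : Type*} [Fintype N] [DecidableEq N] {U : Set (N → ℂ)} (hU : IsOpen U)
    {ρ : Δ → (N → ℂ) → (N → ℂ)} {V : (N → ℂ) → Set (N → ℂ)} {s : (N → ℂ) → (N → ℂ) → ℂ}
    (hA : IsDivisor U ρ V s) {k : ℕ} {h : (N → ℂ) → ℂ} (hh : IsSectionOf U ρ V s k h)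
    {p : N → ℂ} (hp : p ∈ U) (hs : s p p ≠ 0) :
    ∃ O : Set (N → ℂ), IsOpen O ∧ p ∈ O ∧ O ⊆ U ∧ DifferentiableOn ℂ h O := by
  obtain ⟨t, ht, hts⟩ := hh.hol p hp
  have hVo := hA.isOpen p hp
  have hsd := hA.hol p hp
  refine ⟨V p ∩ {x | s p x ≠ 0} ∩ V p, ?_, ⟨⟨hA.mem p hp, hs⟩, hA.mem p hp⟩,
    fun x hx => hA.sub p hp hx.2, ?_⟩
  · have h1 : IsOpen (V p ∩ (s p) ⁻¹' {0}ᶜ) :=
      hsd.continuousOn.isOpen_inter_preimage hVo isOpen_compl_singleton
    exact h1.inter hVo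
  · have h2 : DifferentiableOn ℂ (fun x => t x * (s p x ^ k)⁻¹) (V p ∩ {x | s p x ≠ 0} ∩ V p) := by
      refine DifferentiableOn.mul (ht.mono inter_subset_right) ?_
      refine DifferentiableOn.inv ((hsd.mono inter_subset_right).pow k) ?_
      intro x hx
      exact pow_ne_zero k hx.1.2
    refine h2.congr fun x hx => ?_
    rw [hts x hx.2 hx.1.2, mul_assoc, mul_inv_cancel₀ (pow_ne_zero k hx.1.2), mul_one]

/-- the derivative of a translation -/
theorem qvert_jac {D : Set (A → ℂ)} (hD : IsOpen D) {f : (A ⊕ B → ℂ) → (A ⊕ B → ℂ)} {v : B → ℂ}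
    (hf : ∀ x ∈ Tot D B, f x = Sum.elim (prA x) (prB x + v)) {x : A ⊕ B → ℂ}
    (hx : x ∈ Tot D B) : Jac f x = 1 := by
  have h1 : f =ᶠ[𝓝 x] fun y => y + (Sum.elim (0 : A → ℂ) v : A ⊕ B → ℂ) := by
    filter_upwards [(isOpen_tot hD).mem_nhds hx] with y hy
    rw [hf y hy]
    funext i
    rcases i with i | i
    · simp [prA]
    · simp [prB]
  have h2 : fderiv ℂ f x = ContinuousLinearMap.id ℂ (A ⊕ B → ℂ) := by
    rw [h1.fderiv_eq, fderiv_add_const]
    exact fderiv_fun_id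
  unfold Jac
  rw [h2]
  ext i j
  rw [Matrix.of_apply, ContinuousLinearMap.id_apply, Matrix.one_apply, Pi.single_apply]

theorem vert {D : Set (A → ℂ)} (hD : IsOpen D) (hc : IsPreconnected D)
    {ρ : Δ → (A ⊕ B → ℂ) → (A ⊕ B → ℂ)} (hρ : HolAct (Tot D B) ρ)
    {L : AddSubgroup (B → ℂ)} (hL : S.IsLattice L)
    (hLt : ∀ v ∈ L, ∃ δ, ∀ x ∈ Tot D B, ρ δ x = Sum.elim (prA x) (prB x + v))
    {V : (A ⊕ B → ℂ) → Set (A ⊕ B → ℂ)} {s : (A ⊕ B → ℂ) → (A ⊕ B → ℂ) → ℂ}
    (hA : IsDivisor (Tot D B) ρ V s) {m : ℕ} {E : (A ⊕ B → ℂ) → ℝ}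
    (hE : IsPsefRest (Tot D B) ρ s m E) {k : ℕ} {h : (A ⊕ B → ℂ) → ℂ}
    (hh : IsSectionOf (Tot D B) ρ V s k h) {x₀ : A ⊕ B → ℂ} (hx₀ : x₀ ∈ Tot D B)
    (hs : s x₀ x₀ ≠ 0) :
    DifferentiableAt ℂ h x₀ ∧ ∀ w : B → ℂ, fderiv ℂ h x₀ (Sum.elim 0 w) = 0 := by
  have hU : IsOpen (Tot D B) := isOpen_tot hD
  -- (1) periodicity of `E`
  have hper : ∀ v ∈ L, ∀ x ∈ Tot D B, E (Sum.elim (prA x) (prB x + v)) = E x := by
    intro v hv x hx
    obtain ⟨δ, hδ⟩ := hLt v hv
    have h1 := hE.trans δ x hx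
    rw [qvert_jac hD hδ hx, Matrix.det_one, norm_one, one_pow, mul_one, hδ x hx] at h1
    exact h1
  have hEc : ∀ z ∈ D, ∀ w w' : B → ℂ, E (Sum.elim z w) = E (Sum.elim z w') := fun z hz w w' =>
    logpsh_const hE.psh hL hper hz w w'
  -- (2) points with `E p ≠ 0`
  have hsp : ∀ p ∈ Tot D B, E p ≠ 0 → s p p ≠ 0 := by
    intro p hp hEp h0
    obtain ⟨C, hC⟩ := hE.bound p hp
    have h1 := hC.self_of_nhds
    rw [h0, norm_zero, mul_zero] at h1
    exact hEp (le_antisymm h1 (hE.psh.1 p hp))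
  have helim : ∀ x : A ⊕ B → ℂ, Sum.elim (prA x) (prB x) = x := by
    intro x
    funext i
    rcases i with i | i <;> rfl
  have hmem : ∀ z ∈ D, ∀ w : B → ℂ, Sum.elim z w ∈ Tot D B := fun z hz w => hz
  have hconst : ∀ z ∈ D, E (Sum.elim z (0 : B → ℂ)) ≠ 0 → ∀ w w' : B → ℂ,
      h (Sum.elim z w) = h (Sum.elim z w') := by
    intro z hz hE0 w w'
    have hEw : ∀ w : B → ℂ, E (Sum.elim z w) ≠ 0 := fun w => by
      rw [hEc z hz w 0]
      exact hE0
    have haff : Differentiable ℂ (fun w : B → ℂ => (Sum.elim z w : A ⊕ B → ℂ)) := by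
      rw [differentiable_pi]
      intro i
      rcases i with i | i
      · exact differentiable_const _
      · exact differentiable_apply i
    have hent : Differentiable ℂ (fun w : B → ℂ => h (Sum.elim z w)) := by
      intro w₁
      obtain ⟨O, hO, hpO, -, hdO⟩ := qvert_diff hU hA hh (hmem z hz w₁)
        (hsp _ (hmem z hz w₁) (hEw w₁))
      exact (hdO.differentiableAt (hO.mem_nhds hpO)).comp w₁ (haff w₁)
    refine S.storus_const hL hent ?_ w w'
    intro v hv x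
    obtain ⟨δ, hδ⟩ := hLt v hv
    have h1 := hh.invariant δ (Sum.elim z x) (hmem z hz x) (hsp _ (hmem z hz x) (hEw x))
    rw [hδ _ (hmem z hz x)] at h1
    exact h1
  have hzero : ∀ x ∈ Tot D B, E x ≠ 0 → ∀ w : B → ℂ, fderiv ℂ h x (Sum.elim 0 w) = 0 := by
    intro x hx hEx w
    obtain ⟨O, hO, hpO, -, hdO⟩ := qvert_diff hU hA hh hx (hsp x hx hEx)
    have hd : DifferentiableAt ℂ h x := hdO.differentiableAt (hO.mem_nhds hpO)
    have hE0 : E (Sum.elim (prA x) (0 : B → ℂ)) ≠ 0 := by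
      rw [hEc (prA x) hx 0 (prB x), helim]
      exact hEx
    have hline : HasDerivAt (fun c : ℂ => x + c • (Sum.elim 0 w : A ⊕ B → ℂ))
        (Sum.elim 0 w : A ⊕ B → ℂ) 0 := by
      have h1 := ((hasDerivAt_id (0 : ℂ)).smul_const (Sum.elim 0 w : A ⊕ B → ℂ)).const_add x
      rw [one_smul] at h1
      exact h1
    have h2 : HasFDerivAt h (fderiv ℂ h x) (x + (0 : ℂ) • (Sum.elim 0 w : A ⊕ B → ℂ)) := by
      rw [zero_smul, add_zero]
      exact hd.hasFDerivAt
    have h3 := h2.comp_hasDerivAt (0 : ℂ) hline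
    have h4 : (h ∘ fun c : ℂ => x + c • (Sum.elim 0 w : A ⊕ B → ℂ)) = fun _ => h x := by
      funext c
      have h5 : x + c • (Sum.elim 0 w : A ⊕ B → ℂ) = Sum.elim (prA x) (prB x + c • w) := by
        funext i
        rcases i with i | i
        · simp [prA]
        · simp [prB]
      show h (x + c • (Sum.elim 0 w : A ⊕ B → ℂ)) = h x
      rw [h5, hconst (prA x) hx hE0 (prB x + c • w) (prB x), helim]
    rw [h4] at h3
    exact h3.unique (hasDerivAt_const (0 : ℂ) (h x))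
  -- (3) density
  obtain ⟨O, hO, hpO, hOU, hdO⟩ := qvert_diff hU hA hh hx₀ hs
  refine ⟨hdO.differentiableAt (hO.mem_nhds hpO), fun w => ?_⟩
  have hdw : DifferentiableOn ℂ (fun x => fderiv ℂ h x (Sum.elim 0 w)) O :=
    hol_fderiv_apply hO hdO (w := fun _ => Sum.elim 0 w) (differentiableOn_const _)
  have hcw : ContinuousAt (fun x => fderiv ℂ h x (Sum.elim 0 w)) x₀ :=
    hdw.continuousOn.continuousAt (hO.mem_nhds hpO)
  have hdense := logpsh_dense hU (isPreconnected_tot hc) hE.psh hE.ne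
  by_contra hne
  have h1 := hcw.eventually_ne hne
  have h2 := mem_closure_iff_nhds.1 (hdense hx₀) _ h1
  obtain ⟨x, hx1, hx2, hx3⟩ := h2
  exact hx1 (hzero x hx2 hx3 w)

theorem iitaka_le {D : Set (A → ℂ)} (hD : IsOpen D) (hc : IsPreconnected D)
    {ρ : Δ → (A ⊕ B → ℂ) → (A ⊕ B → ℂ)} (hρ : HolAct (Tot D B) ρ)
    {L : AddSubgroup (B → ℂ)} (hL : S.IsLattice L)
    (hLt : ∀ v ∈ L, ∃ δ, ∀ x ∈ Tot D B, ρ δ x = Sum.elim (prA x) (prB x + v))
    {V : (A ⊕ B → ℂ) → Set (A ⊕ B → ℂ)} {s : (A ⊕ B → ℂ) → (A ⊕ B → ℂ) → ℂ}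
    (hA : IsDivisor (Tot D B) ρ V s) {m : ℕ} {E : (A ⊕ B → ℂ) → ℝ}
    (hE : IsPsefRest (Tot D B) ρ s m E) {k p : ℕ} {h : Fin (p + 1) → (A ⊕ B → ℂ) → ℂ}
    (hh : ∀ i, IsSectionOf (Tot D B) ρ V s k (h i)) {x₀ : A ⊕ B → ℂ} (hx₀ : x₀ ∈ Tot D B)
    (hs : s x₀ x₀ ≠ 0) (h0 : h 0 x₀ ≠ 0)
    (hli : LinearIndependent ℂ fun i : Fin p => fderiv ℂ (fun x => h i.succ x / h 0 x) x₀) :
    p ≤ Fintype.card A := by
  have hv : ∀ i, DifferentiableAt ℂ (h i) x₀ ∧ ∀ w : B → ℂ, fderiv ℂ (h i) x₀ (Sum.elim 0 w) = 0 :=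
    fun i => vert hD hc hρ hL hLt hA hE (hh i) hx₀ hs
  have hq : ∀ i : Fin p, ∀ w : B → ℂ,
      fderiv ℂ (fun x => h i.succ x / h 0 x) x₀ (Sum.elim 0 w) = 0 := by
    intro i w
    have h1 : HasFDerivAt (fun x => h i.succ x * (h 0 x)⁻¹)
        (h i.succ x₀ • (-((h 0 x₀ ^ 2)⁻¹) • fderiv ℂ (h 0) x₀) + (h 0 x₀)⁻¹ • fderiv ℂ (h i.succ) x₀)
        x₀ := by
      have e1 := (hv i.succ).1.hasFDerivAt
      have e2 := (hasDerivAt_inv h0).comp_hasFDerivAt x₀ (hv 0).1.hasFDerivAt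
      exact e1.mul e2
    have h2 : (fun x => h i.succ x / h 0 x) = fun x => h i.succ x * (h 0 x)⁻¹ := by
      funext x
      rw [div_eq_mul_inv]
    rw [h2, h1.fderiv]
    simp only [_root_.add_apply, _root_.smul_apply, (hv _).2 w,
      smul_zero, add_zero]
  set ι : (A → ℂ) →L[ℂ] (A ⊕ B → ℂ) := ContinuousLinearMap.pi fun i => Sum.elim
    (fun a => ContinuousLinearMap.proj (R := ℂ) (φ := fun _ : A => ℂ) a) (fun _ => 0) i with hι
  have hιe : ∀ z : A → ℂ, ι z = Sum.elim z 0 := by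
    intro z
    funext i
    rcases i with i | i <;> rfl
  set T : ((A → ℂ) →ₗ[ℂ] ℂ) →ₗ[ℂ] ((A ⊕ B → ℂ) →ₗ[ℂ] ℂ) :=
    LinearMap.lcomp ℂ ℂ (prAL (A := A) (B := B)).toLinearMap with hT
  have hli2 : LinearIndependent ℂ fun i : Fin p =>
      (fderiv ℂ (fun x => h i.succ x / h 0 x) x₀).toLinearMap :=
    hli.map' (ContinuousLinearMap.coeLM ℂ) (LinearMap.ker_eq_bot.2 ContinuousLinearMap.coe_injective)
  have hli3 : LinearIndependent ℂ fun i : Fin p =>
      ((fderiv ℂ (fun x => h i.succ x / h 0 x) x₀).comp ι).toLinearMap := by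
    refine LinearIndependent.of_comp T ?_
    have e : (T ∘ fun i : Fin p =>
        ((fderiv ℂ (fun x => h i.succ x / h 0 x) x₀).comp ι).toLinearMap) =
        fun i : Fin p => (fderiv ℂ (fun x => h i.succ x / h 0 x) x₀).toLinearMap := by
      funext i
      refine LinearMap.ext fun x => ?_
      show fderiv ℂ (fun x => h i.succ x / h 0 x) x₀ (ι (prAL x)) =
        fderiv ℂ (fun x => h i.succ x / h 0 x) x₀ x
      have e2 : x = ι (prAL x) + (Sum.elim (0 : A → ℂ) (prB x) : A ⊕ B → ℂ) := by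
        rw [hιe]
        funext j
        rcases j with j | j
        · show x (Sum.inl j) = x (Sum.inl j) + 0
          rw [add_zero]
        · show x (Sum.inr j) = 0 + x (Sum.inr j)
          rw [zero_add]
      conv_rhs => rw [e2]
      rw [map_add, hq i, add_zero]
    rw [e]
    exact hli2
  have h3 := hli3.fintype_card_le_finrank
  rw [Fintype.card_fin] at h3
  refine h3.trans ?_
  have h4 : Module.finrank ℂ ((A → ℂ) →ₗ[ℂ] ℂ) = Fintype.card A := by
    rw [show Module.finrank ℂ ((A → ℂ) →ₗ[ℂ] ℂ) = Module.finrank ℂ (Module.Dual ℂ (A → ℂ)) from rfl,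
      Subspace.dual_finrank_eq, Module.finrank_fintype_fun_eq_card]
  exact h4.le

end Pool.Agent.H906.BD.Q
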