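import Pool.Agent.H906.BD.P.Main
import Pool.Agent.H906.BD.Q.JetsChi
import Pool.Agent.H906.BD.Q.Vert

/-! # The Kodaira dimension of compact Kähler quotients of `D × ℂ^B` -/

set_option linter.unusedSectionVars false

open Filter Topology Set Metric
open scoped ComplexOrder

namespace Pool.Agent.H906.BD.Q

variable {A B : Type*} [Fintype A] [Fintype B] [DecidableEq A] [DecidableEq B]

theorem kodaira_ge {Δ : Type*} [Group Δ] {D : Set (A → ℂ)} (hD : IsOpen D)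
    (hc : IsPreconnected D) (hne : D.Nonempty) {R : ℝ} (hR : ∀ z ∈ D, ‖z‖ ≤ R)
    {ρ : Δ → (A ⊕ B → ℂ) → (A ⊕ B → ℂ)} (hρ : HolAct (Tot D B) ρ) (hpd : PD (Tot D B) ρ)
    (hcc : CC (Tot D B) ρ) {Δ0 : Subgroup Δ} (hfi : Δ0.FiniteIndex)
    (hs1 : ∀ γ ∈ Δ0, ∀ x ∈ Tot D B, ∀ j i, Jac (ρ γ) x (Sum.inr j) (Sum.inl i) = 0)
    (hs2 : ∀ γ ∈ Δ0, ∀ x ∈ Tot D B, ∀ j j', j ≠ j' →
      Jac (ρ γ) x (Sum.inr j) (Sum.inr j') = 0)
    {g : (A ⊕ B → ℂ) → Matrix (A ⊕ B) (A ⊕ B) ℂ} (hg : Kahler (Tot D B) g)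
    (hinv : InvForm (Tot D B) ρ g) :
    (∃ L : AddSubgroup (B → ℂ), S.IsLattice L ∧
      ∀ v ∈ L, ∃ δ, ∀ x ∈ Tot D B, ρ δ x = Sum.elim (prA x) (prB x + v)) ∧
    ∃ l : ℕ, 0 < l ∧ ∃ (F₀ : (A ⊕ B → ℂ) → ℂ) (F : A → (A ⊕ B → ℂ) → ℂ),
      (DifferentiableOn ℂ F₀ (Tot D B) ∧
        ∀ δ, ∀ x ∈ Tot D B, F₀ (ρ δ x) * (Jac (ρ δ) x).det ^ l = F₀ x) ∧
      (∀ i, DifferentiableOn ℂ (F i) (Tot D B) ∧
        ∀ δ, ∀ x ∈ Tot D B, F i (ρ δ x) * (Jac (ρ δ) x).det ^ l = F i x) ∧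
      ∃ x₀ ∈ Tot D B, F₀ x₀ ≠ 0 ∧
        LinearIndependent ℂ fun i => fderiv ℂ (fun x => F i x / F₀ x) x₀ := by
  obtain ⟨σ, hσ, hρσ, hdisc, L, hL, hLt, hLn, m, hm, hmt⟩ :=
    S.normal_lattice hD hc hne hR hρ hpd hcc hfi hs1 hs2 hg hinv
  refine ⟨⟨L, hL, hLt⟩, ?_⟩
  obtain ⟨M, hMj, haff, hMm, hMd⟩ := S.fib_linear hD hc hne hρ hσ hρσ hL hLn
  have hχ1 : ∀ γ, ‖(M γ).det‖ = 1 := S.unitary_det hne hρ hpd hσ hρσ hL hLt haff hMm
  have hχ2 : ∀ γ δ, (M (γ * δ)).det = (M γ).det * (M δ).det := fun γ δ => by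
    rw [hMm, Matrix.det_mul]
  have hχ3 : ∀ γ, Triv D σ γ → (M γ).det ^ m = 1 := fun γ hγ =>
    S.det_pow_eq_one hne hρ haff hMm (hmt γ hγ)
  obtain ⟨z₀, hz₀, hstab⟩ := S.exists_generic hD hc hne hσ hdisc
  obtain ⟨l, hl, f₀, f, hf₀, hf, hf₀a, hfa, hz, hdet⟩ :=
    S.poincare_jets_chi hD hR hσ hdisc hχ1 hχ2 hm hχ3 hz₀ hstab
  have hcomp : ∀ P : (A → ℂ) → ℂ, DifferentiableOn ℂ P D →
      DifferentiableOn ℂ (fun x : A ⊕ B → ℂ => P (prA x)) (Tot D B) := fun P hP =>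
    hP.comp (prAL (A := A) (B := B)).differentiable.differentiableOn fun y hy => hy
  refine ⟨l, hl, fun x => f₀ (prA x), fun i x => f i (prA x), ⟨hcomp _ hf₀, ?_⟩,
    fun i => ⟨hcomp _ (hf i), ?_⟩, Sum.elim z₀ 0, hz₀, hz, ?_⟩
  · intro δ x hx
    show f₀ (prA (ρ δ x)) * _ = _
    rw [hMd δ x hx, hρσ δ x hx]
    exact hf₀a δ (prA x) hx
  · intro δ x hx
    show f i (prA (ρ δ x)) * _ = _
    rw [hMd δ x hx, hρσ δ x hx]
    exact hfa i δ (prA x) hx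
  · have hder : ∀ i, fderiv ℂ (fun x : A ⊕ B → ℂ => f i (prA x) / f₀ (prA x)) (Sum.elim z₀ 0) =
        (fderiv ℂ (fun z => f i z / f₀ z) z₀).comp (prAL (A := A) (B := B)) := by
      intro i
      have h0 : DifferentiableAt ℂ (fun z => f i z * (f₀ z)⁻¹) z₀ :=
        ((hf i).differentiableAt (hD.mem_nhds hz₀)).mul
          ((hf₀.differentiableAt (hD.mem_nhds hz₀)).inv hz)
      have h1 : DifferentiableAt ℂ (fun z => f i z / f₀ z) z₀ := by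
        simpa only [div_eq_mul_inv] using h0
      have h2 : HasFDerivAt (fun z => f i z / f₀ z) (fderiv ℂ (fun z => f i z / f₀ z) z₀)
          (prAL (A := A) (B := B) (Sum.elim z₀ 0)) := h1.hasFDerivAt
      exact (h2.comp _ (prAL (A := A) (B := B)).hasFDerivAt).fderiv
    rw [Fintype.linearIndependent_iff]
    intro c hc' i
    have h3 : Matrix.vecMul c
        (Matrix.of fun i j => fderiv ℂ (fun z => f i z / f₀ z) z₀ (Pi.single j 1)) = 0 := by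
      funext j
      have h4 := congrArg (fun T => T (Sum.elim (Pi.single j 1) 0 : A ⊕ B → ℂ)) hc'
      simp only [hder] at h4
      rw [ContinuousLinearMap.sum_apply] at h4
      exact h4
    exact congrFun (Matrix.eq_zero_of_vecMul_eq_zero hdet h3) i

end Pool.Agent.H906.BD.Q
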